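import Pool.Agent.Lib.MP_176643_co.Robust

namespace Pool.Agent.Results.MP_176643_co.DoubleExpCubic

open Filter Finset Pool.Agent.Lib.MP_176643_co

theorem sq_lt_pow (l : ℕ) (hl : 45 ≤ l) : 10 ^ 9 * (l + 1) ^ 2 < 2 ^ l := by
  induction l, hl using Nat.le_induction with
  | base => norm_num
  | succ l hl ih =>
    rw [pow_succ 2]
    nlinarith

theorem result : ∀ᶠ u : ℕ in atTop, ∀ r t n : ℕ, 2 ≤ r →
    10 ^ 6 * u * Nat.log 2 u ^ 2 * (u ^ 2 + Nat.log 2 r) ≤ t * Nat.log 2 r →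
    n ≤ 2 ^ 2 ^ u → ∃ col : (Fin n → Fin t) → Fin r,
      (∀ (σ : Equiv.Perm (Fin n)) (w : Fin n → Fin t), col (w ∘ σ) = col w) ∧
      ∀ l : Combinatorics.Line (Fin t) (Fin n), ¬ l.IsMono col := by
  refine eventually_atTop.2 ⟨2 ^ 45, fun u hu r t n hr ht hn => ?_⟩
  have h0 := Nat.le_log_of_pow_le one_lt_two hu
  have h1 := (sq_lt_pow _ h0).trans_le (Nat.pow_log_le_self 2 (x := u) (by omega))
  have h3 := Nat.lt_pow_succ_log_self one_lt_two u
  have hρ : 0 < Nat.log 2 r := Nat.log_pos one_lt_two hr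
  have hρ' := Nat.pow_log_le_self 2 (x := r) (by omega)
  generalize Nat.log 2 u = l at *
  generalize Nat.log 2 r = ρ at *
  have h4 : u ^ 4 ≤ 2 ^ ((l + 1) * 4) := by
    rw [pow_mul]
    exact Nat.pow_le_pow_left h3.le _
  obtain ⟨s, hs⟩ : ∃ s, 6 * (3 * (u + 3)) = s := ⟨_, rfl⟩
  have h7 : s ≤ 19 * u := by omega
  have h8 : 19 * u ≤ 2 ^ u := by
    have := (sq_lt_pow u (by omega)).le
    nlinarith
  obtain ⟨φ, hσ, hφ⟩ : ∃ φ : (Fin n → Fin s) → Fin (2 ^ (3 * u + 2)) × (Fin s →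
      ZMod (s * (2 ^ (u + 1)) ^ 5 * s ^ (3 * s) + 1)),
      (∀ (σ : Equiv.Perm (Fin n)) w, φ (w ∘ σ) = φ w) ∧
      ∀ (l : Combinatorics.Line (Fin s) (Fin n)) c,
        #{b | φ (l b) = c} ≤ (2 * (3 * (u + 3)) + 1) * 2 := by
    subst hs
    refine manyR (e := 3 * (u + 3)) (M := 2 ^ (u + 1)) (K := 2 ^ (3 * u + 2)) (n := n) (by omega)
      ?_ ?_ ?_
    · rw [show ((3 * (u + 3) : ℕ) : ℝ) / 3 = (u + 3 : ℕ) * 1 by push_cast; ring, Real.exp_nat_mul]
      refine le_trans (by push_cast; ring_nf; rfl) (pow_le_pow_left₀ zero_le_two ?_ _)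
      linarith [Real.add_one_le_exp 1]
    · rw [Fintype.card_fun, Fintype.card_pi, Fintype.card_fin]
      refine (Nat.pow_le_pow_left (prod_le_pow_card _ _ (2 ^ (u + 1)) fun q _ => ?_) _).trans_lt ?_
      · rw [ZMod.card]
        exact q.2
      · rw [card_univ, Fintype.card_fin, ← pow_mul, ← pow_mul]
        refine Nat.pow_lt_pow_right one_lt_two ?_
        calc (u + 1) * (2 ^ (u + 1) * (6 * (3 * (u + 3)))) ≤ 2 ^ u * (2 ^ (u + 1) * 2 ^ u) := by
              gcongr <;> omega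
          _ < 2 ^ (3 * u + 2) := by
            rw [← pow_add, ← pow_add]
            exact Nat.pow_lt_pow_right one_lt_two (by omega)
    · refine hn.trans_lt (lt_of_not_ge fun h => ?_)
      have h9 := (Chebyshev.two_pow_le_mul_lcmUpto (2 ^ (u + 1))).trans (Nat.mul_le_mul_left _ h)
      rw [pow_succ, pow_mul, sq] at h9
      have h10 := Nat.le_of_mul_le_mul_right h9 (by positivity)
      have h11 := (sq_lt_pow (2 ^ u) (by omega)).le
      nlinarith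
  have h10 : s ≤ 2 ^ (l + 6) := by
    rw [pow_add]
    rw [Nat.succ_eq_add_one, pow_succ] at h3
    omega
  have h9 : Fintype.card (Fin (2 ^ (3 * u + 2)) × (Fin s →
      ZMod (s * (2 ^ (u + 1)) ^ 5 * s ^ (3 * s) + 1))) ≤ 2 ^ (1300 * u ^ 2 * l) := by
    rw [Fintype.card_prod, Fintype.card_fun, Fintype.card_fin, Fintype.card_fin, ZMod.card]
    have h11 : s * (2 ^ (u + 1)) ^ 5 * s ^ (3 * s) + 1 ≤
        2 ^ (l + 6 + (u + 1) * 5 + (l + 6) * (3 * s) + 1) := by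
      rw [pow_succ 2 (_ + _), mul_two]
      refine add_le_add ?_ Nat.one_le_two_pow
      rw [pow_add 2 (_ + _), pow_add 2 (l + 6), pow_mul 2 (u + 1), pow_mul 2 (l + 6)]
      gcongr
    refine (Nat.mul_le_mul_left _ (Nat.pow_le_pow_left h11 _)).trans ?_
    rw [← pow_mul, ← pow_add]
    refine Nat.pow_le_pow_right two_pos ?_
    have h12 : l ≤ u := by nlinarith
    calc 3 * u + 2 + (l + 6 + (u + 1) * 5 + (l + 6) * (3 * s) + 1) * s
        ≤ 3 * u + 2 + (u + 6 + (u + 1) * 5 + (l + 6) * (3 * (19 * u)) + 1) * (19 * u) := by gcongr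
      _ ≤ 1300 * u ^ 2 * l := by
        nlinarith [Nat.mul_le_mul_left (u ^ 2) h0, Nat.mul_le_mul_right u hu]
  obtain ⟨L, hL⟩ : ∃ L, 1300 * u ^ 2 * l * s * (2 * ((l + 1) * 4)) = L := ⟨_, rfl⟩
  have h5 : 0 < u ^ 3 * l ^ 2 := by positivity
  have h11 : L + 2 ≤ 210000 * (u ^ 3 * l ^ 2) := by
    calc _ ≤ 1300 * u ^ 2 * l * (19 * u) * (2 * ((l + 1) * 4)) + 2 := by
          rw [← hL]
          gcongr
      _ ≤ _ := by nlinarith [Nat.mul_le_mul_left (u ^ 3 * l) h0]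
  refine reduceR (M := 2 * ((l + 1) * 4)) (H := L / ρ + 2) (by omega) (by omega) hσ hφ ?_ ?_ ?_
  · have h12 : 2 * ((2 * (3 * (u + 3)) + 1) * 2) ^ 2 ≤ s ^ 2 := by
      rw [← hs]
      nlinarith
    rw [pow_mul s, pow_mul, ← mul_assoc]
    refine le_trans ?_ (Nat.pow_le_pow_left h12 _)
    rw [mul_pow 2]
    refine Nat.mul_le_mul_right _ (le_trans ?_ h4)
    have h13 : 4 * 210000 * l ^ 2 ≤ u := by nlinarith
    nlinarith [Nat.mul_le_mul_left (u ^ 3) h13, Nat.div_le_self L ρ]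
  · refine (Nat.mul_le_mul_left _ (Nat.pow_le_pow_left (Nat.pow_le_pow_left h9 _) _)).trans_lt ?_
    rw [← pow_mul, ← pow_mul, ← mul_assoc, hL, pow_succ' r (L / ρ + 1)]
    refine Nat.mul_lt_mul_of_pos_left (lt_of_lt_of_le ?_ (Nat.pow_le_pow_left hρ' _)) (by omega)
    rw [← pow_mul]
    exact Nat.pow_lt_pow_right one_lt_two (Nat.lt_mul_div_succ L hρ)
  · refine (Nat.mul_le_mul_right _ (Nat.pow_le_pow_left (Nat.pow_le_pow_left h10 _) _)).trans_lt ?_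
    rw [show 4 = 2 ^ 2 from rfl, ← pow_mul, ← pow_mul, ← pow_mul, ← pow_add]
    refine Nat.pow_lt_pow_right one_lt_two (Nat.lt_of_mul_lt_mul_right (a := ρ) (lt_of_lt_of_le ?_ ht))
    have h12 : (l + 6) * (s * (2 * ((l + 1) * 4))) + 4 ≤ 10 ^ 6 * u * l ^ 2 := by
      calc _ ≤ (l + 6) * (19 * u * (2 * ((l + 1) * 4))) + 4 := by gcongr
        _ ≤ _ := by nlinarith [Nat.mul_le_mul_left (u * l) h0, Nat.mul_le_mul_left u h0]
    nlinarith [Nat.mul_le_mul_right ρ h12, Nat.div_mul_le_self L ρ]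

end Pool.Agent.Results.MP_176643_co.DoubleExpCubic
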